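import Pool.Agent.Q231.RS.LL6
import Mathlib.Probability.Independence.InfinitePi

/-!
# The sixth moment of zeta at random points

Let `X_0, X_1, ...` be pairwise independent random points, `X_n` uniformly distributed on `[n, n + 1]`. We prove, without
any hypothesis, that almost surely `∑_{n < N} |ζ(1/2 + iX_n)|^6` is asymptotic to `∫_0^N |ζ(1/2 + it)|^6 dt`. Hence the
asymptotic formula for the sixth moment (and each formula `M_3(T) ∼ c (log T)^9`) holds if and only if its discrete
version at random points, one in every unit interval, holds with probability one; and if and only if this has positive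
probability.

Proof. The variance of the sum is at most the maximum of `|ζ|^6` up to `N` times the integral. We prove
`ζ(1/2 + it) = O(t^(1/6) log t)` (second and third derivative tests without logarithms, one logarithm from the dyadic
decomposition), so that the maximum is `O(N (log N)^6)`, whereas the integral is at least `c N (log N)^9` (lower bound of
the starting library). So the relative variance is `O((log N)^(-3))`; the strong law follows along a subsequence on which
the integral grows like `exp(j^(3/4))`, and by monotonicity.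
-/

set_option autoImplicit false

open MeasureTheory ProbabilityTheory Filter Topology Set

namespace Pool.Agent.Results.MP_39df77_nt.SixthMomentAtRandomPoints

/-- `M_3(T)` -/
noncomputable def M3 (T : ℝ) : ℝ := 1 / T * ∫ t in (0 : ℝ)..T, ‖riemannZeta (1 / 2 + t * Complex.I)‖ ^ 6

/-- The average of `|ζ(1/2 + iX_n)|^6` over `n < N`. -/
noncomputable def R3 (x : ℕ → ℝ) (N : ℕ) : ℝ :=
  1 / N * ∑ n ∈ Finset.range N, ‖riemannZeta (1 / 2 + x n * Complex.I)‖ ^ 6

/-- The arithmetic factor `a_3 = ∏_p (1 - 1/p)^9 ∑_m binom(m + 2, 2)^2 p^(-m)`. -/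
noncomputable def a3 : ℝ :=
  ∏' p : Nat.Primes, ((1 - 1 / ((p : ℕ) : ℝ)) ^ 9 * ∑' m : ℕ, ((m + 2).choose 2 : ℝ) ^ 2 * (1 / ((p : ℕ) : ℝ)) ^ m)

/-- `X_n` is uniformly distributed on `[n, n + 1]`, and the `X_n` are pairwise independent. -/
structure RandomPoints {Ω : Type} [MeasurableSpace Ω] (P : Measure Ω) (X : ℕ → Ω → ℝ) : Prop where
  meas : ∀ n, Measurable (X n)
  law : ∀ n : ℕ, P.map (X n) = volume.restrict (Icc (n : ℝ) (n + 1))
  ind : Pairwise fun i j => IndepFun (X i) (X j) P

/-- the product measure on the sequences of points of `[0, 1]` -/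
noncomputable def Cube : Measure (ℕ → ℝ) := Measure.infinitePi fun _ : ℕ => (volume.restrict (Icc (0 : ℝ) 1))

open Pool.Agent.Q231.RS

lemma upts {Ω : Type} [MeasurableSpace Ω] {P : Measure Ω} {X : ℕ → Ω → ℝ} (h : RandomPoints P X) : UPts P X :=
  ⟨h.meas, h.law, h.ind⟩

instance inst1 : IsProbabilityMeasure (volume.restrict (Icc (0 : ℝ) 1)) := ⟨by simp⟩

instance inst2 : IsProbabilityMeasure Cube := by
  unfold Cube
  infer_instance

/-- the points `n + θ_n` for a random sequence `θ` -/
lemma cube_points : RandomPoints Cube fun (n : ℕ) (θ : ℕ → ℝ) => (n : ℝ) + θ n where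
  meas := fun n => by fun_prop
  law := by
    intro n
    have h1 : Cube.map (fun θ : ℕ → ℝ => θ n) = volume.restrict (Icc (0 : ℝ) 1) :=
      Measure.infinitePi_map_eval (fun _ : ℕ => (volume.restrict (Icc (0 : ℝ) 1))) n
    have h2 : Cube.map (fun θ : ℕ → ℝ => (n : ℝ) + θ n) =
        (Cube.map (fun θ : ℕ → ℝ => θ n)).map (fun x : ℝ => (n : ℝ) + x) := by
      rw [Measure.map_map (by fun_prop) (by fun_prop)]
      rfl
    rw [h2, h1]
    ext E hE
    rw [Measure.map_apply (by fun_prop) hE, Measure.restrict_apply ((by fun_prop : Measurable fun x : ℝ => (n : ℝ) + x) hE),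
      Measure.restrict_apply hE]
    have h3 : (fun x : ℝ => (n : ℝ) + x) ⁻¹' E ∩ Icc 0 1 = (fun x : ℝ => (n : ℝ) + x) ⁻¹' (E ∩ Icc (n : ℝ) (n + 1)) := by
      ext x
      simp only [mem_inter_iff, mem_preimage, mem_Icc]
      constructor
      · rintro ⟨a1, a2, a3⟩
        exact ⟨a1, by linarith, by linarith⟩
      · rintro ⟨a1, a2, a3⟩
        exact ⟨a1, by linarith, by linarith⟩
    rw [h3, measure_preimage_add]
  ind := by
    intro i j hij
    have h1 : iIndepFun (fun (n : ℕ) (θ : ℕ → ℝ) => (n : ℝ) + θ n) Cube := by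
      unfold Cube
      exact iIndepFun_infinitePi (P := fun _ : ℕ => (volume.restrict (Icc (0 : ℝ) 1)))
        (X := fun (n : ℕ) (x : ℝ) => (n : ℝ) + x) (fun n => by fun_prop)
    exact h1.indepFun hij

lemma f_eq (t : ℝ) : ‖riemannZeta (1 / 2 + t * Complex.I)‖ ^ 6 = Pool.Agent.W188.Mom.Z t ^ (6 : ℝ) := by
  unfold Pool.Agent.W188.Mom.Z
  rw [← Real.rpow_natCast]
  norm_num

lemma M3_iff (c : ℝ) : Tendsto (fun T : ℝ => M3 T / Real.log T ^ 9) atTop (𝓝 c) ↔
    Tendsto (fun N : ℕ => MI (fun t => Pool.Agent.W188.Mom.Z t ^ (6 : ℝ)) N / gA 9 N) atTop (𝓝 c) := by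
  rw [← real_iff (Pool.Agent.W188.Mom.Zp_cont (by norm_num))
    (fun t => Real.rpow_nonneg (Pool.Agent.W188.Mom.Z_nonneg t) _) (by norm_num : (0 : ℝ) ≤ 9)]
  refine tendsto_congr fun T => ?_
  unfold M3 gA
  simp only [f_eq]
  have e1 : Real.log T ^ (9 : ℝ) = Real.log T ^ 9 := by
    rw [← Real.rpow_natCast]; norm_num
  rw [e1, div_mul_eq_mul_div, one_mul, div_div]

lemma R3_eq (x : ℕ → ℝ) (N : ℕ) : R3 x N / Real.log N ^ 9 =
    (∑ n ∈ Finset.range N, Pool.Agent.W188.Mom.Z (x n) ^ (6 : ℝ)) / gA 9 N := by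
  unfold R3 gA
  simp only [f_eq]
  have e1 : Real.log N ^ (9 : ℝ) = Real.log N ^ 9 := by
    rw [← Real.rpow_natCast]; norm_num
  rw [e1, div_mul_eq_mul_div, one_mul, div_div]

/-- **The sixth moment at random points.** -/
theorem result (Ω : Type) [MeasurableSpace Ω] (P : Measure Ω) [IsProbabilityMeasure P] (X : ℕ → Ω → ℝ)
    (h : RandomPoints P X) :
    -- the sum over the random points is asymptotic to the integral
    (∀ᵐ ω ∂P, Tendsto (fun N : ℕ => R3 (fun n => X n ω) N / M3 N) atTop (𝓝 1)) ∧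
    -- the asymptotic formula with any constant
    (∀ c : ℝ, (Tendsto (fun T : ℝ => M3 T / Real.log T ^ 9) atTop (𝓝 c) ↔
        ∀ᵐ ω ∂P, Tendsto (fun N : ℕ => R3 (fun n => X n ω) N / Real.log N ^ 9) atTop (𝓝 c)) ∧
      (Tendsto (fun T : ℝ => M3 T / Real.log T ^ 9) atTop (𝓝 c) ↔
        ¬ ∀ᵐ ω ∂P, ¬ Tendsto (fun N : ℕ => R3 (fun n => X n ω) N / Real.log N ^ 9) atTop (𝓝 c))) ∧
    -- the formula of the problem
    (Tendsto (fun T : ℝ => M3 T / (42 * a3 / (Nat.factorial 9 : ℝ) * Real.log T ^ 9)) atTop (𝓝 1) ↔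
      ∀ᵐ ω ∂P, Tendsto (fun N : ℕ => R3 (fun n => X n ω) N / (42 * a3 / (Nat.factorial 9 : ℝ) * Real.log N ^ 9))
        atTop (𝓝 1)) ∧
    -- such points exist: `n + θ_n` for almost every sequence `θ` of points of `[0, 1]`
    RandomPoints Cube (fun (n : ℕ) (θ : ℕ → ℝ) => (n : ℝ) + θ n) := by
  have hlln := lln_six (upts h)
  have hMp : ∀ᶠ N : ℕ in atTop, 0 < MI (fun t => Pool.Agent.W188.Mom.Z t ^ (6 : ℝ)) N := by
    filter_upwards [low_lin (β := 6) (by norm_num), eventually_gt_atTop 0] with N h1 h2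
    have : (0 : ℝ) < N := by exact_mod_cast h2
    linarith
  have hiff : ∀ᵐ ω ∂P, ∀ c : ℝ, Tendsto (fun T : ℝ => M3 T / Real.log T ^ 9) atTop (𝓝 c) ↔
      Tendsto (fun N : ℕ => R3 (fun n => X n ω) N / Real.log N ^ 9) atTop (𝓝 c) := by
    filter_upwards [hlln] with ω hω c
    rw [M3_iff]
    simp only [R3_eq]
    exact asy_iff hMp hω
  have hconst : ∀ (u v : ℝ → ℝ) (b : ℝ) (l : Filter ℝ), b ≠ 0 →
      (Tendsto (fun T => u T / (b * v T)) l (𝓝 1) ↔ Tendsto (fun T => u T / v T) l (𝓝 b)) := by
    intro u v b l hb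
    constructor
    · intro h1
      have h2 := h1.const_mul b
      rw [mul_one] at h2
      refine h2.congr fun T => ?_
      rw [← div_div, mul_div_assoc', mul_div_cancel₀ _ hb]
    · intro h1
      have h2 := h1.div_const b
      rw [div_self hb] at h2
      refine h2.congr fun T => ?_
      rw [div_div, mul_comm]
  refine ⟨?_, fun c => ⟨?_, ?_⟩, ?_, cube_points⟩
  · filter_upwards [hlln] with ω hω
    refine hω.congr' ?_
    filter_upwards [eventually_gt_atTop 0] with N hN
    have hN0 : (N : ℝ) ≠ 0 := by positivity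
    unfold R3 M3 MI
    simp only [f_eq]
    rw [mul_div_mul_left _ _ (by positivity)]
  · constructor
    · intro h1
      filter_upwards [hiff] with ω hω
      exact (hω c).1 h1
    · intro h1
      obtain ⟨ω, hω1, hω2⟩ := (h1.and hiff).exists
      exact (hω2 c).2 hω1
  · constructor
    · intro h1 h2
      obtain ⟨ω, hω1, hω2⟩ := (h2.and hiff).exists
      exact hω1 ((hω2 c).1 h1)
    · intro h1
      by_contra h2
      apply h1
      filter_upwards [hiff] with ω hω h3
      exact h2 ((hω c).2 h3)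
  · by_cases hb : 42 * a3 / (Nat.factorial 9 : ℝ) = 0
    · rw [hb]
      simp only [zero_mul, div_zero]
      constructor
      · intro h1
        exact absurd (tendsto_nhds_unique h1 tendsto_const_nhds) one_ne_zero
      · intro h1
        obtain ⟨ω, hω⟩ := h1.exists
        exact absurd (tendsto_nhds_unique hω tendsto_const_nhds) one_ne_zero
    · rw [hconst M3 (fun T => Real.log T ^ 9) _ _ hb]
      constructor
      · intro h1
        filter_upwards [hiff] with ω hω
        have h2 := ((hω _).1 h1).div_const (42 * a3 / (Nat.factorial 9 : ℝ))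
        rw [div_self hb] at h2
        refine h2.congr fun N => ?_
        rw [div_div, mul_comm]
      · intro h1
        obtain ⟨ω, hω1, hω2⟩ := (h1.and hiff).exists
        refine (hω2 _).2 ?_
        have h2 := hω1.const_mul (42 * a3 / (Nat.factorial 9 : ℝ))
        rw [mul_one] at h2
        refine h2.congr fun N => ?_
        rw [← div_div, mul_div_assoc', mul_div_cancel₀ _ hb]

end Pool.Agent.Results.MP_39df77_nt.SixthMomentAtRandomPoints
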