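import Mathlib
import Pool.Agent.Q288.MZ.Six

set_option autoImplicit false

/-!
MP_39df77_nt. The sixth moment of `ζ` and the points at which `ζ(1/2 + it)` lies on few lines through the origin: an
asymptotic identity without any hypothesis (at least four lines) and equivalent forms of the conjecture (at least two
lines).
-/

open Filter Topology Set MeasureTheory

namespace Pool.Agent.Results.MP_39df77_nt.TwoAndFourLines

/-- The value `ζ(1/2 + it)`. -/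
noncomputable def z (t : ℝ) : ℂ := riemannZeta (1 / 2 + t * Complex.I)

/-- The heights `t > 100` at which `ζ(1/2 + it)` is a nonzero point of one of the `N` lines `u e^{πij/N} ℝ`. -/
def Pts (u : ℂ) (N : ℕ) : Set ℝ :=
  {t | 100 < t ∧ ∃ (j : ℕ) (r : ℝ), r ≠ 0 ∧ z t = r * (u * Complex.exp (Real.pi * Complex.I * j / N))}

/-- The sum of `|ζ(1/2 + it)|^6` over the heights `A < t ≤ B` in `Pts u N`. -/
noncomputable def Sum (N : ℕ) (u : ℂ) (A B : ℝ) : ℝ := ∑ᶠ t ∈ Pts u N ∩ Ioc A B, ‖z t‖ ^ 6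

/-- The factor `X(s) = χ(1 - s)` of the functional equation `ζ(1 - s) = X(s) ζ(s)`. -/
noncomputable def X (s : ℂ) : ℂ :=
  2 * (2 * (Real.pi : ℂ)) ^ (-s) * Complex.Gamma s * Complex.cos (Real.pi * s / 2)

/-- The logarithmic derivative of `X` at `1/2 + it` (a real number, close to `log (t/2π)`). -/
noncomputable def lam (t : ℝ) : ℝ := (logDeriv X (1 / 2 + t * Complex.I)).re

/-- The weighted sum of `|ζ(1/2 + it)|^6` over the heights `t ≤ T` in `Pts u N`. -/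
noncomputable def WSum (N : ℕ) (u : ℂ) (T : ℝ) : ℝ :=
  2 * Real.pi / N * ∑ᶠ t ∈ Pts u N ∩ Iic T, ‖z t‖ ^ 6 / lam t

/-- The arithmetic factor `a_3`. -/
noncomputable def a3 : ℝ := ∏' p : Nat.Primes, ((1 - 1 / (p : ℝ)) ^ 9 *
    ∑' m : ℕ, ((m + 2).choose 2 : ℝ) ^ 2 * (1 / (p : ℝ)) ^ m)

/-- The moment `M_3(T)`. -/
noncomputable def M3 (T : ℝ) : ℝ := 1 / T * ∫ t in (0 : ℝ)..T, ‖z t‖ ^ 6

lemma few {u : ℂ} {N : ℕ} (hu : u ≠ 0) (hN : 2 ≤ N) (c : ℝ) :
    Tendsto (fun T => M3 T / Real.log T ^ 9) atTop (𝓝 c) ↔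
      Tendsto (fun T => 1 / T * (2 * Real.pi / N * Sum N u 0 T) / Real.log T ^ 10) atTop (𝓝 c) := by
  have h := Pool.Agent.Q288.MZ.few_lines (k := 3) (N := N) hu (by norm_num) (by omega) (by omega) c
  have e2 : (fun T : ℝ => (1 / T * (2 * Real.pi / N * ∑ᶠ t ∈ Pool.Agent.Q288.MZ.Pts u N ∩ Iic T,
      ‖Pool.Agent.Q288.MZ.z t‖ ^ (2 * 3))) / Real.log T ^ (3 ^ 2 + 1)) =
      fun T => 1 / T * (2 * Real.pi / N * Sum N u 0 T) / Real.log T ^ 10 := by
    funext T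
    have e0 : Pool.Agent.Q288.MZ.Pts u N ∩ Iic T = Pts u N ∩ Ioc 0 T := by
      ext t
      constructor
      · rintro ⟨h2, h3⟩
        exact ⟨h2, by linarith [h2.1], h3⟩
      · rintro ⟨h2, h3, h4⟩
        exact ⟨h2, h4⟩
    rw [e0]
    rfl
  rw [e2] at h
  exact h

theorem result :
    -- the sums are finite
    (∀ (u : ℂ) (N : ℕ) (A B : ℝ), u ≠ 0 → 1 ≤ N → (Pts u N ∩ Ioc A B).Finite) ∧
    -- at least four lines: the integral is equal to the weighted sum, up to `O(T (log T)^6)`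
    (∀ (u : ℂ) (N : ℕ), u ≠ 0 → 4 ≤ N → ∃ C T₀ : ℝ, ∀ T : ℝ, T₀ ≤ T →
      |WSum N u T - ∫ t in (0 : ℝ)..T, ‖z t‖ ^ 6| ≤ C * (T * Real.log T ^ 6) ∧
      |WSum N u T - ∫ t in (0 : ℝ)..T, ‖z t‖ ^ 6| ≤ C / Real.log T ^ 3 * ∫ t in (0 : ℝ)..T, ‖z t‖ ^ 6) ∧
    (∀ t : ℝ, 100 < t → |lam t - Real.log (t / (2 * Real.pi))| ≤ 14 / t) ∧
    -- at least two lines: comparison in dyadic intervals
    (∀ (u : ℂ) (N : ℕ) (ε : ℝ), u ≠ 0 → 2 ≤ N → 0 < ε → ε < 1 → ∀ᶠ T : ℝ in atTop,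
        Sum N u T (2 * T) ≤ (N / (2 * Real.pi) + ε) *
          (Real.log T * ∫ t in ((1 - ε) * T)..((2 + ε) * T), ‖z t‖ ^ 6) ∧
        (N / (2 * Real.pi) - ε) * (Real.log T * ∫ t in T..(2 * T), ‖z t‖ ^ 6) ≤
          Sum N u ((1 - ε) * T) ((2 + ε) * T)) ∧
    -- at least two lines: the limits
    (∀ (u : ℂ) (N : ℕ) (c : ℝ), u ≠ 0 → 2 ≤ N →
      (Tendsto (fun T => M3 T / Real.log T ^ 9) atTop (𝓝 c) ↔
        Tendsto (fun T => 1 / T * (2 * Real.pi / N * Sum N u 0 T) / Real.log T ^ 10) atTop (𝓝 c))) ∧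
    -- Q1
    (∀ (u : ℂ) (N : ℕ), u ≠ 0 → 2 ≤ N →
      (Tendsto (fun T => M3 T / (42 * a3 / (Nat.factorial 9 : ℝ) * Real.log T ^ 9)) atTop (𝓝 1) ↔
        Tendsto (fun T => 1 / T * (2 * Real.pi / N * Sum N u 0 T) /
          (42 * a3 / (Nat.factorial 9 : ℝ) * Real.log T ^ 10)) atTop (𝓝 1))) := by
  refine ⟨fun u N A B hu hN => (Pool.Agent.Q288.MZ.pts_finite hu hN B).subset
      (inter_subset_inter_right _ fun _ h => h.2),
    fun u N hu hN => ?_, fun t ht => (Pool.Agent.W188.QS.a_line.1 t (by linarith)).2.1,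
    fun u N ε hu hN h0 h1 => ?_, fun u N c hu hN => few hu hN c, fun u N hu hN => ?_⟩
  · obtain ⟨C, T₀, hC, h⟩ := Pool.Agent.Q288.MZ.six_diff hu hN
    obtain ⟨C', T₁, hC', h'⟩ := Pool.Agent.Q288.MZ.six_rel hu hN
    refine ⟨max C C', max (max T₀ T₁) 2, fun T hT => ?_⟩
    have hT1 : T₀ ≤ T := ((le_max_left _ _).trans (le_max_left _ _)).trans hT
    have hT2 : T₁ ≤ T := ((le_max_right _ _).trans (le_max_left _ _)).trans hT
    have hT3 : 2 ≤ T := (le_max_right _ _).trans hT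
    have hL : 0 < Real.log T := Real.log_pos (by linarith)
    have hI : 0 ≤ ∫ t in (0 : ℝ)..T, ‖z t‖ ^ 6 :=
      intervalIntegral.integral_nonneg (by linarith) fun t _ => by positivity
    refine ⟨(h T hT1).trans ?_, (h' T hT2).trans ?_⟩
    · exact mul_le_mul_of_nonneg_right (le_max_left _ _) (by positivity)
    · apply mul_le_mul_of_nonneg_right _ hI
      exact div_le_div_of_nonneg_right (le_max_right _ _) (by positivity)
  · filter_upwards [Pool.Agent.Q288.MZ.cmp_upper (k := 3) (N := N) hu (by norm_num) (by omega) (by omega) h0 h1,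
      Pool.Agent.Q288.MZ.cmp_lower (k := 3) (N := N) hu (by norm_num) (by omega) (by omega) h0 h1] with T hT1 hT2
    exact ⟨hT1, hT2⟩
  · exact Pool.Agent.Q288.MZ.const_iff _ (F := M3) (G := fun T => 1 / T * (2 * Real.pi / N * Sum N u 0 T))
      (L₁ := fun T => Real.log T ^ 9) (L₂ := fun T => Real.log T ^ 10) (few hu hN _)

end Pool.Agent.Results.MP_39df77_nt.TwoAndFourLines
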